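import Pool.Agent.H61.UN.Def

/-!
# [H61 GD ADJ] Two adjacent primes in different cells
-/

namespace Pool.Agent.H61.GD

open Finset Pool.Agent.H61.UN

theorem adj {m s : ℕ} (v : Fin m × Fin s → ℕ) (hv : Function.Injective v) (N : ℕ)
    (h : 2 ≤ pc v N) : ∃ i j : Fin m × Fin s, i.1 ≠ j.1 ∧ v i < v j ∧ (N + v i).Prime ∧
      (N + v j).Prime ∧ ∀ l, v i < v l → v l < v j → ¬ (N + v l).Prime := by
  classical
  unfold pc at h
  obtain ⟨a, ha, b, hb, hab⟩ := one_lt_card.1 (lt_of_lt_of_le one_lt_two h)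
  rw [mem_filter] at ha hb
  obtain ⟨la, hla⟩ := ha.2
  obtain ⟨lb, hlb⟩ := hb.2
  obtain ⟨P, hP⟩ : ∃ P : Finset ((Fin m × Fin s) × (Fin m × Fin s)), P =
    univ.filter (fun q => q.1.1 ≠ q.2.1 ∧ v q.1 < v q.2 ∧ (N + v q.1).Prime ∧ (N + v q.2).Prime) :=
    ⟨_, rfl⟩
  have hne : P.Nonempty := by
    have h1 : v (a, la) ≠ v (b, lb) := by
      intro h2
      have := hv h2
      simp only [Prod.mk.injEq] at this
      exact hab this.1
    rcases lt_or_gt_of_ne h1 with h2 | h2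
    · refine ⟨((a, la), (b, lb)), ?_⟩
      rw [hP, mem_filter]
      exact ⟨mem_univ _, hab, h2, hla, hlb⟩
    · refine ⟨((b, lb), (a, la)), ?_⟩
      rw [hP, mem_filter]
      exact ⟨mem_univ _, Ne.symm hab, h2, hlb, hla⟩
  obtain ⟨⟨i, j⟩, hij, hmin⟩ := exists_min_image P (fun q => v q.2 - v q.1) hne
  rw [hP, mem_filter] at hij
  obtain ⟨-, h1, h2, h3, h4⟩ := hij
  simp only at h1 h2 h3 h4
  refine ⟨i, j, h1, h2, h3, h4, fun l hl1 hl2 hl3 => ?_⟩
  by_cases hli : l.1 = i.1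
  · have h5 : (l, j) ∈ P := by
      rw [hP, mem_filter]
      exact ⟨mem_univ _, by rw [hli]; exact h1, hl2, hl3, h4⟩
    have := hmin _ h5
    simp only at this
    omega
  · have h5 : (i, l) ∈ P := by
      rw [hP, mem_filter]
      exact ⟨mem_univ _, fun h6 => hli h6.symm, hl1, h3, hl3⟩
    have := hmin _ h5
    simp only at this
    omega

end Pool.Agent.H61.GD
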