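import Pool.Agent.H61.GD.Def
import Pool.Agent.H61.GD.Adj
import Pool.Agent.H21.GC.FourBox

/-!
# [H61 GD TWO] Clause (2): a third of all even `h`

`s` from `main_B hU (1/1000) 4 1`, `K = 4 s - 2` (absolute).  Given `ε < 1/3` and `A`: `δ0, T0` from `four_box (ε/2) s`, `δ = δ0/4^(4s)`,
`c1, T1, lam1` from `main_B` for `A + 1`, `δ`.  `x = X/(2 T1)`, `c = c1/T1`, `lam = lam1/4`.
-/

namespace Pool.Agent.H61.GD

open Finset Filter Pool.Agent.H61.UN Pool.Agent.H61.UL Pool.Agent.H92.MM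

/-- the analytic facts about `x = X/(2 T1)` -/
theorem ev_two (A T1 : ℝ) (hA : 0 < A) (hT1 : 1 ≤ T1) (q : ℝ) : ∀ᶠ X : ℝ in atTop, ∀ L : ℝ, 0 ≤ L →
    L ≤ Real.log X ^ A → q * L ≤ Real.log (X / (2 * T1)) ^ (A + 1) ∧
      Real.log X ≤ 2 * Real.log (X / (2 * T1)) ∧ 0 < Real.log (X / (2 * T1)) ∧
      Real.log (X / (2 * T1)) ≤ Real.log X ∧ q * L ≤ X / 2 := by
  have hl : Tendsto Real.log atTop atTop := Real.tendsto_log_atTop
  have h5 : ∀ᶠ X : ℝ in atTop, |q| * Real.log X ^ A ≤ X / 2 := by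
    have h6 : (fun X : ℝ => Real.log X ^ A) =o[atTop] fun X : ℝ => X ^ (1 : ℝ) :=
      isLittleO_log_rpow_rpow_atTop A one_pos
    have h7 : (0 : ℝ) < 1 / (2 * (|q| + 1)) := by positivity
    filter_upwards [h6.bound h7, eventually_ge_atTop (1 : ℝ)] with X hX hX1
    have h8 : 0 ≤ Real.log X := Real.log_nonneg hX1
    rw [Real.rpow_one, Real.norm_of_nonneg (Real.rpow_nonneg h8 A),
      Real.norm_of_nonneg (by linarith)] at hX
    have h9 : |q| * Real.log X ^ A ≤ (|q| + 1) * (1 / (2 * (|q| + 1)) * X) := by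
      apply mul_le_mul (by linarith) hX (Real.rpow_nonneg h8 A) (by positivity)
    have h10 : (|q| + 1) * (1 / (2 * (|q| + 1)) * X) = X / 2 := by
      have : |q| + 1 ≠ 0 := by positivity
      field_simp
    linarith
  filter_upwards [h5, hl.eventually_ge_atTop (2 * Real.log (2 * T1)), hl.eventually_ge_atTop 2,
    hl.eventually_ge_atTop (2 * (|q| * 2 ^ A)), eventually_gt_atTop (0 : ℝ)] with
      X h6 h7 h8 h9 hX0 L hL0 hL
  have e : Real.log (X / (2 * T1)) = Real.log X - Real.log (2 * T1) :=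
    Real.log_div hX0.ne' (by positivity)
  have hT : 0 ≤ Real.log (2 * T1) := Real.log_nonneg (by linarith)
  have h10 : Real.log X ≤ 2 * Real.log (X / (2 * T1)) := by
    rw [e]
    linarith
  have h11 : 1 ≤ Real.log (X / (2 * T1)) := by linarith
  have h12 : q * L ≤ |q| * Real.log X ^ A := by
    calc q * L ≤ |q| * L := mul_le_mul_of_nonneg_right (le_abs_self q) hL0
      _ ≤ _ := mul_le_mul_of_nonneg_left hL (abs_nonneg q)
  refine ⟨?_, h10, by linarith, by rw [e]; linarith, h12.trans h6⟩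
  refine h12.trans ?_
  have h13 : Real.log X ^ A ≤ (2 * Real.log (X / (2 * T1))) ^ A :=
    Real.rpow_le_rpow (by linarith) h10 hA.le
  rw [Real.mul_rpow (by norm_num) (by linarith)] at h13
  have h14 : 0 ≤ Real.log (X / (2 * T1)) ^ A := Real.rpow_nonneg (by linarith) A
  calc |q| * Real.log X ^ A ≤ |q| * (2 ^ A * Real.log (X / (2 * T1)) ^ A) :=
        mul_le_mul_of_nonneg_left h13 (abs_nonneg q)
    _ = (|q| * 2 ^ A) * Real.log (X / (2 * T1)) ^ A := by ring
    _ ≤ Real.log (X / (2 * T1)) * Real.log (X / (2 * T1)) ^ A := by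
        apply mul_le_mul_of_nonneg_right _ h14
        linarith
    _ = Real.log (X / (2 * T1)) ^ (A + 1) := by
        rw [Real.rpow_add (by linarith), Real.rpow_one, mul_comm]

open Classical in
theorem two (hU : BlkU) : ∃ K : ℕ, ∀ (cons : Bool) (ε A : ℝ), 0 < ε → 0 < A →
    ∃ (c lam : ℝ) (L0 X0 : ℕ), 0 < c ∧ 0 < lam ∧ ∀ X : ℕ, X0 ≤ X → ∀ L : ℕ, L0 ≤ L →
      (L : ℝ) ≤ Real.log X ^ A → (cons = true → (L : ℝ) ≤ lam * Real.log X) →
      (1 / 3 - ε) * ((L : ℝ) / 2) ≤ (((Icc 1 L).filter (fun h => Even h ∧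
        c * (min 1 ((L : ℝ) / Real.log X)) ^ K * (X / Real.log X ^ 2) ≤ (cq cons X h : ℝ))).card : ℝ) := by
  obtain ⟨s, hs, hmain⟩ := main_B hU (1 / 1000) (by norm_num) (by norm_num) 4 1 (by norm_num)
  refine ⟨4 * s - (1 + 1), fun cons ε A hε hA => ?_⟩
  obtain ⟨δ0, hδ0, T0, hbox⟩ := Pool.Agent.H21.GC.four_box (ε / 2) (by positivity) s hs
  obtain ⟨δ, hδ⟩ : ∃ δ : ℝ, δ = δ0 / 4 ^ (4 * s) := ⟨_, rfl⟩
  have hδ' : 0 < δ := by
    rw [hδ]
    positivity
  obtain ⟨c1, T1, lam1, hc1, hT1, hlam1, hev⟩ := hmain (A + 1) δ (by linarith) hδ'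
  have hx : Tendsto (fun X : ℕ => (X : ℝ) / (2 * T1)) atTop atTop :=
    (tendsto_natCast_atTop_atTop).atTop_div_const (by positivity)
  have hev1 := hx.eventually hev
  have hev2 := (tendsto_natCast_atTop_atTop (R := ℝ)).eventually (ev_two A T1 hA hT1 2)
  obtain ⟨X0, hX0⟩ := eventually_atTop.1 (hev1.and hev2)
  obtain ⟨n1, hn1⟩ := exists_nat_gt (1 / ε)
  refine ⟨c1 / T1, lam1 / 4, 2 * T0 + 2 * n1 + 4, max X0 1, by positivity, by positivity,
    fun X hX L hL hLA hcons => ?_⟩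
  obtain ⟨hE1, hE2⟩ := hX0 X ((le_max_left _ _).trans hX)
  have hXpos : (0 : ℝ) < X := by
    have : 1 ≤ X := (le_max_right _ _).trans hX
    exact_mod_cast this
  obtain ⟨hq1, hq2, hq3, hq4, hq5⟩ := hE2 L (Nat.cast_nonneg _) hLA
  obtain ⟨x, hxd⟩ : ∃ x : ℝ, x = (X : ℝ) / (2 * T1) := ⟨_, rfl⟩
  rw [← hxd] at hE1 hq1 hq2 hq3 hq4
  by_contra hcon
  push Not at hcon
  -- the popular numbers
  obtain ⟨thr, hthr⟩ : ∃ thr : ℝ, thr = c1 / T1 * (min 1 ((L : ℝ) / Real.log X)) ^ (4 * s - (1 + 1)) *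
    (X / Real.log X ^ 2) := ⟨_, rfl⟩
  rw [← hthr] at hcon
  obtain ⟨T, hT⟩ : ∃ T : ℕ, T = L / 2 := ⟨_, rfl⟩
  have hT0 : T0 ≤ T := by omega
  have hTn : n1 ≤ T := by omega
  have hT1' : 1 ≤ T := by omega
  have h4T : 4 * T ≤ 2 * L := by omega
  have hL4T : L ≤ 4 * T := by omega
  have hε3 : ε < 1 / 3 := by
    by_contra h
    push Not at h
    have h1 : (1 / 3 - ε) * ((L : ℝ) / 2) ≤ 0 :=
      mul_nonpos_of_nonpos_of_nonneg (by linarith) (by positivity)
    have h2 : (0 : ℝ) ≤ (((Icc 1 L).filter (fun h => Even h ∧ thr ≤ (cq cons X h : ℝ))).card : ℝ) :=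
      Nat.cast_nonneg _
    linarith
  have hcard : ((((Icc 1 T).filter (fun m => m ∈ {m : ℕ | thr ≤ (cq cons X (2 * m) : ℝ)})).card : ℕ) : ℝ) ≤
      (1 / 3 - ε / 2) * T := by
    have h1 : ((Icc 1 T).filter (fun m => m ∈ {m : ℕ | thr ≤ (cq cons X (2 * m) : ℝ)})).card ≤
        ((Icc 1 L).filter (fun h => Even h ∧ thr ≤ (cq cons X h : ℝ))).card := by
      refine card_le_card_of_injOn (fun m => 2 * m) ?_ ?_
      · intro m hm
        rw [mem_coe, mem_filter, mem_Icc, Set.mem_setOf_eq] at hm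
        rw [mem_coe, mem_filter, mem_Icc]
        exact ⟨⟨(by omega : 1 ≤ 2 * m), (by omega : 2 * m ≤ L)⟩, ⟨m, by ring⟩, hm.2⟩
      · intro m _ m' _ h
        simpa using h
    have h2 : ((((Icc 1 T).filter (fun m => m ∈ {m : ℕ | thr ≤ (cq cons X (2 * m) : ℝ)})).card : ℕ) : ℝ) ≤
        (((Icc 1 L).filter (fun h => Even h ∧ thr ≤ (cq cons X h : ℝ))).card : ℝ) := by
      exact_mod_cast h1
    have h3 : (L : ℝ) ≤ 2 * T + 1 := by
      have : L ≤ 2 * T + 1 := by omega
      exact_mod_cast this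
    have h4 : (1 : ℝ) < ε * T := by
      have h5 : (n1 : ℝ) ≤ T := by exact_mod_cast hTn
      have h6 : 1 / ε < T := lt_of_lt_of_le hn1 h5
      rwa [div_lt_iff₀ hε, mul_comm] at h6
    have h5 : (1 / 3 - ε) * ((L : ℝ) / 2) ≤ (1 / 3 - ε) * ((2 * T + 1) / 2) :=
      mul_le_mul_of_nonneg_left (by linarith) (by linarith)
    nlinarith
  have hB := hbox T hT0 _ hcard
  obtain ⟨VV, hVV⟩ : ∃ VV : Finset (Fin 4 → Fin s → Fin (2 * T + 1)), VV =
      univ.filter (fun V : Fin 4 → Fin s → Fin (2 * T + 1) =>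
        (∀ i j i' j', V i j = V i' j' → i = i' ∧ j = j') ∧
        (∀ p : ℕ, p.Prime → ∃ a : ℕ, ∀ i j, ¬ p ∣ a + 2 * (V i j : ℕ)) ∧
        ∀ i j i' j', i ≠ i' → (V i j : ℕ) < V i' j' →
          ((V i' j' : ℕ) - V i j ≤ T ∧
            (V i' j' : ℕ) - V i j ∉ {m : ℕ | thr ≤ (cq cons X (2 * m) : ℝ)})) := ⟨_, rfl⟩
  rw [← hVV] at hB
  obtain ⟨BB, hBB⟩ : ∃ BB : Finset (Fin 4 × Fin s → ℕ),
      BB = VV.image (fun V q => 2 * (V q.1 q.2 : ℕ)) := ⟨_, rfl⟩
  have hBBcard : BB.card = VV.card := by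
    rw [hBB]
    apply card_image_of_injective
    intro V V' h
    funext i j
    have h1 := congrFun h (i, j)
    simp only at h1
    exact Fin.ext (by omega)
  obtain ⟨D, hD⟩ : ∃ D : Finset ℕ, D = (Icc 1 (2 * T)).filter (fun h => Even h ∧
      ¬ thr ≤ (cq cons X h : ℝ)) := ⟨_, rfl⟩
  have hDcard : D.card ≤ T := by
    have h1 : D ⊆ (Icc 1 T).image (fun m => 2 * m) := by
      intro h hh
      rw [hD, mem_filter, mem_Icc] at hh
      obtain ⟨⟨h1, h2⟩, ⟨m, hm⟩, -⟩ := hh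
      rw [mem_image]
      exact ⟨m, mem_Icc.2 ⟨by omega, by omega⟩, by omega⟩
    refine (card_le_card h1).trans (card_image_le.trans ?_)
    simp
  have hdata : ∀ v ∈ BB, ∃ V ∈ VV, ∀ q, v q = 2 * (V q.1 q.2 : ℕ) := by
    intro v hv
    rw [hBB, mem_image] at hv
    obtain ⟨V, hV, rfl⟩ := hv
    exact ⟨V, hV, fun q => rfl⟩
  have hle : ∀ v ∈ BB, ∀ q, v q ≤ 4 * T := by
    intro v hv q
    obtain ⟨V, -, h⟩ := hdata v hv
    rw [h]
    have := (V q.1 q.2).isLt
    omega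
  have hinj : ∀ v ∈ BB, Function.Injective v := by
    intro v hv q q' hqq
    obtain ⟨V, hV, h⟩ := hdata v hv
    rw [hVV, mem_filter] at hV
    rw [h, h] at hqq
    have h1 : V q.1 q.2 = V q'.1 q'.2 := Fin.ext (by omega)
    have h2 := hV.2.1 _ _ _ _ h1
    exact Prod.ext h2.1 h2.2
  have key := hE1 (4 * T) (by omega) (by
      refine le_trans ?_ hq1
      exact_mod_cast h4T) (cons = true) (by
      intro hc
      have h1 := hcons hc
      have h2 : ((4 * T : ℕ) : ℝ) ≤ 2 * L := by exact_mod_cast h4T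
      have h3 : lam1 / 4 * Real.log X ≤ lam1 / 4 * (2 * Real.log x) :=
        mul_le_mul_of_nonneg_left hq2 (by positivity)
      linarith) BB (by
      intro v hv
      refine ⟨mem_IJ.2 ⟨hle v hv, hinj v hv⟩, ?_⟩
      intro p hp
      obtain ⟨V, hV, h⟩ := hdata v hv
      rw [hVV, mem_filter] at hV
      obtain ⟨a, ha⟩ := hV.2.2.1 p hp
      exact ⟨a, fun q => by rw [h]; exact ha q.1 q.2⟩) (by
      rw [hBBcard]
      refine le_trans (le_of_eq ?_) hB
      rw [hδ]
      push_cast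
      rw [mul_pow]
      field_simp) (GP cons (4 * T) D) (by
      intro N _ r hr i
      rw [mem_GP] at hr
      fin_cases i
      · exact ⟨hr.1.1, hr.2.2.2.1⟩
      · exact ⟨hr.1.2, hr.2.2.2.2.1⟩) (by
      intro v hv N _ hpc hcn
      have hpc2 : 2 ≤ pc v N := by
        by_contra h
        push Not at h
        have h1 : (pc v N : ℝ) ≤ 1 := by
          have : pc v N ≤ 1 := by omega
          exact_mod_cast this
        norm_num at hpc
        linarith
      obtain ⟨i, j, hij, hlt, hpi, hpj, hadj⟩ := adj v (hinj v hv) N hpc2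
      refine ⟨![i, j], ?_, ?_⟩
      · intro a b hab
        fin_cases a <;> fin_cases b
        · rfl
        · simp at hab
          rw [hab] at hij
          exact absurd rfl hij
        · simp at hab
          rw [hab] at hij
          exact absurd rfl hij
        · rfl
      · rw [mem_GP]
        obtain ⟨V, hV, h⟩ := hdata v hv
        rw [hVV, mem_filter] at hV
        have h1 := hV.2.2.2 i.1 i.2 j.1 j.2 hij (by
          have := hlt
          rw [h, h] at this
          omega)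
        rw [Set.mem_setOf_eq] at h1
        have h2 : v j - v i = 2 * ((V j.1 j.2 : ℕ) - V i.1 i.2) := by
          rw [h, h]
          omega
        simp only [Function.comp, Matrix.cons_val_zero, Matrix.cons_val_one]
        refine ⟨⟨hle v hv i, hle v hv j⟩, hlt, ?_, hpi, hpj, ?_⟩
        · rw [hD, mem_filter, mem_Icc, h2]
          refine ⟨⟨?_, by omega⟩, ⟨(V j.1 j.2 : ℕ) - V i.1 i.2, by ring⟩, h1.2⟩
          have := h2
          omega
        · intro hc t ht1 ht2 htp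
          obtain ⟨l, hl⟩ := hcn hc (t - N) (by
            have := hle v hv j
            omega) (by
            have e : N + (t - N) = t := by omega
            rw [e]
            exact htp)
          have e : N + v l = t := by omega
          apply hadj l (by omega) (by omega)
          rw [e]
          exact htp)
  -- upper bound
  have hTx0 : ∀ N ∈ (Tx x).filter (fun N : ℕ => (N : ℝ) ≤ T1 * x), 1 ≤ N ∧ N ≤ X - 4 * T := by
    intro N hN
    rw [mem_filter, Tx, mem_Ioc] at hN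
    have h1 : T1 * x = X / 2 := by
      rw [hxd]
      have : T1 ≠ 0 := by positivity
      field_simp
    have h2 : (N : ℝ) ≤ X / 2 := by rw [← h1]; exact hN.2
    have h3 : ((4 * T : ℕ) : ℝ) ≤ 2 * L := by exact_mod_cast h4T
    have h4 : ((N + 4 * T : ℕ) : ℝ) ≤ X := by
      push_cast at h3 ⊢
      linarith
    have h5 : N + 4 * T ≤ X := by exact_mod_cast h4
    omega
  have hup := sum_GP cons (4 * T) D _ (X - 4 * T) hTx0
  have hX4 : X - 4 * T + 4 * T = X := by
    have h3 : ((4 * T : ℕ) : ℝ) ≤ 2 * L := by exact_mod_cast h4T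
    have h4 : ((4 * T : ℕ) : ℝ) ≤ X := by linarith
    have h5 : 4 * T ≤ X := by exact_mod_cast h4
    omega
  rw [hX4] at hup
  have hthr0 : 0 ≤ thr := by
    rw [hthr]
    have : 0 ≤ min 1 ((L : ℝ) / Real.log X) := le_min zero_le_one (by
      have : 0 < Real.log X := by linarith
      positivity)
    positivity
  have hup2 : ((∑ N ∈ (Tx x).filter (fun N : ℕ => (N : ℝ) ≤ T1 * x),
      (GP cons (4 * T) D N).card : ℕ) : ℝ) ≤ (4 * T + 1) * (T * thr) := by
    have h1 : ((∑ N ∈ (Tx x).filter (fun N : ℕ => (N : ℝ) ≤ T1 * x),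
        (GP cons (4 * T) D N).card : ℕ) : ℝ) ≤ ((4 * T + 1) * ∑ h ∈ D, cq cons X h : ℕ) := by
      exact_mod_cast hup
    refine h1.trans ?_
    push_cast
    apply mul_le_mul_of_nonneg_left _ (by positivity)
    calc ∑ h ∈ D, (cq cons X h : ℝ) ≤ ∑ _h ∈ D, thr := by
          apply sum_le_sum
          intro h hh
          rw [hD, mem_filter] at hh
          have := hh.2.2
          push Not at this
          exact this.le
      _ = D.card * thr := by rw [sum_const, nsmul_eq_mul]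
      _ ≤ T * thr := mul_le_mul_of_nonneg_right (by exact_mod_cast hDcard) hthr0
  push_cast at hup2 key
  have hkey2 := key.trans hup2
  have hlX : 0 < Real.log X := by linarith
  have hTr : (1 : ℝ) ≤ T := by exact_mod_cast hT1'
  have hL4 : (L : ℝ) ≤ 4 * T := by exact_mod_cast hL4T
  have hLpos : (0 : ℝ) < L := by
    have : 0 < L := by omega
    exact_mod_cast this
  obtain ⟨M, hM⟩ : ∃ M : ℝ, M = (min 1 ((L : ℝ) / Real.log X)) ^ (4 * s - (1 + 1)) := ⟨_, rfl⟩
  have hM0 : 0 < M := by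
    rw [hM]
    have : 0 < min 1 ((L : ℝ) / Real.log X) := lt_min one_pos (by positivity)
    positivity
  have hmono : (L : ℝ) / Real.log X ≤ 4 * T / Real.log x := by
    rw [div_le_div_iff₀ hlX hq3]
    exact mul_le_mul hL4 hq4 hq3.le (by positivity)
  have h1 : M ≤ (min 1 (4 * (T : ℝ) / Real.log x)) ^ (4 * s - (1 + 1)) := by
    rw [hM]
    apply pow_le_pow_left₀ (le_min zero_le_one (by positivity))
    exact min_le_min le_rfl hmono
  have h2 : (4 * (T : ℝ) / Real.log X) ^ 2 ≤ (4 * (T : ℝ) / Real.log x) ^ (1 + 1) := by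
    apply pow_le_pow_left₀ (by positivity)
    exact div_le_div_of_nonneg_left (by positivity) hq3 hq4
  have h3 : c1 * x * (4 * (T : ℝ) / Real.log X) ^ 2 * M ≤
      c1 * x * (4 * (T : ℝ) / Real.log x) ^ (1 + 1) *
        (min 1 (4 * (T : ℝ) / Real.log x)) ^ (4 * s - (1 + 1)) := by
    have hx0 : 0 ≤ x := by
      rw [hxd]
      positivity
    apply mul_le_mul _ h1 hM0.le (by positivity)
    exact mul_le_mul_of_nonneg_left h2 (by positivity)
  have h4 := h3.trans hkey2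
  rw [hthr, ← hM, hxd] at h4
  have h5 : c1 * ((X : ℝ) / (2 * T1)) * (4 * (T : ℝ) / Real.log X) ^ 2 * M =
      (8 * (T : ℝ) ^ 2) * (c1 / T1 * M * (X / Real.log X ^ 2)) := by
    have e1 : T1 ≠ 0 := by positivity
    have e2 : Real.log X ≠ 0 := hlX.ne'
    field_simp
    ring
  have h6 : (4 * (T : ℝ) + 1) * (T * (c1 / T1 * M * (X / Real.log X ^ 2))) =
      (4 * (T : ℝ) ^ 2 + T) * (c1 / T1 * M * (X / Real.log X ^ 2)) := by ring
  rw [h5, h6] at h4
  have h7 : 0 < c1 / T1 * M * (X / Real.log X ^ 2) := by positivity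
  have h8 := le_of_mul_le_mul_right h4 h7
  nlinarith

end Pool.Agent.H61.GD
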