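import Pool.Agent.H61.UN.Main

/-!
# [H61 GD DEF] MP_8923e7_nt, THEOREM G, part D: definitions and the counting of pairs and tuples
-/

namespace Pool.Agent.H61.GD

open Finset

/-- `p` and `q` are primes; if `cons` then `p < q` are consecutive primes -/
def Pq (cons : Bool) (p q : ℕ) : Prop :=
  p.Prime ∧ q.Prime ∧ (cons = true → ∀ t : ℕ, p < t → t < q → ¬ t.Prime)

open Classical in
/-- number of `n ≤ X` with `Pq cons n (n + h)` -/
noncomputable def cq (cons : Bool) (X h : ℕ) : ℕ :=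
  ((Icc 1 X).filter (fun n => Pq cons n (n + h))).card

open Classical in
/-- number of `n ≤ X` with `n`, `n + Q n_i` all prime -/
noncomputable def ck {k : ℕ} (X Q : ℕ) (n : Fin k → ℕ) : ℕ :=
  ((Icc 1 X).filter (fun m => m.Prime ∧ ∀ i, (m + Q * n i).Prime)).card

open Classical in
/-- pairs of sites `r 0 < r 1 ≤ M`, difference in `D`, with primes at `N` -/
noncomputable def GP (cons : Bool) (M : ℕ) (D : Finset ℕ) (N : ℕ) : Finset (Fin 2 → ℕ) :=
  (Fintype.piFinset (fun _ : Fin 2 => range (M + 1))).filter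
    (fun r => r 0 < r 1 ∧ r 1 - r 0 ∈ D ∧ Pq cons (N + r 0) (N + r 1))

open Classical in
/-- tuples of sites `(Q z, Q (z + n_i))`, `n ∈ D`, with primes at `N` -/
noncomputable def GK {k : ℕ} (Q T : ℕ) (D : Finset (Fin k → ℕ)) (N : ℕ) :
    Finset (Fin (k + 1) → ℕ) :=
  (((range (T + 1) ×ˢ D).filter (fun q => (∀ i, q.1 + q.2 i ≤ T) ∧ (N + Q * q.1).Prime ∧
    ∀ i, (N + Q * (q.1 + q.2 i)).Prime)).image
      (fun q => Fin.cons (Q * q.1) (fun i => Q * (q.1 + q.2 i))))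

theorem mem_GP {cons : Bool} {M : ℕ} {D : Finset ℕ} {N : ℕ} {r : Fin 2 → ℕ} :
    r ∈ GP cons M D N ↔ (r 0 ≤ M ∧ r 1 ≤ M) ∧ r 0 < r 1 ∧ r 1 - r 0 ∈ D ∧
      Pq cons (N + r 0) (N + r 1) := by
  classical
  unfold GP
  rw [mem_filter, Fintype.mem_piFinset]
  simp only [Fin.forall_fin_two, mem_range, Nat.lt_succ_iff]

theorem sum_GP (cons : Bool) (M : ℕ) (D : Finset ℕ) (S : Finset ℕ) (Y : ℕ)
    (hS : ∀ N ∈ S, 1 ≤ N ∧ N ≤ Y) :
    ∑ N ∈ S, (GP cons M D N).card ≤ (M + 1) * ∑ h ∈ D, cq cons (Y + M) h := by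
  classical
  have h1 : ∑ N ∈ S, (GP cons M D N).card = (S.sigma (fun N => GP cons M D N)).card := by
    rw [card_sigma]
  have h2 : (range (M + 1) ×ˢ (D.sigma (fun h => (Icc 1 (Y + M)).filter
      (fun n => Pq cons n (n + h))))).card = (M + 1) * ∑ h ∈ D, cq cons (Y + M) h := by
    rw [card_product, card_range, card_sigma]
    rfl
  rw [h1, ← h2]
  refine card_le_card_of_injOn (fun z => (z.2 0, ⟨z.2 1 - z.2 0, z.1 + z.2 0⟩)) ?_ ?_
  · rintro ⟨N, r⟩ hz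
    rw [mem_coe, mem_sigma] at hz
    obtain ⟨hN, hr⟩ := hz
    rw [mem_GP] at hr
    rw [mem_coe, mem_product, mem_sigma, mem_filter, mem_Icc, mem_range]
    have h3 := hS N hN
    simp only at hr h3 ⊢
    refine ⟨by omega, hr.2.2.1, ⟨by omega, by omega⟩, ?_⟩
    have e : N + r 0 + (r 1 - r 0) = N + r 1 := by omega
    rw [e]
    exact hr.2.2.2
  · rintro ⟨N, r⟩ hz ⟨N', r'⟩ hz' h
    rw [mem_coe, mem_sigma] at hz hz'
    have hr := (mem_GP.1 hz.2)
    have hr' := (mem_GP.1 hz'.2)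
    simp only [Prod.mk.injEq, Sigma.mk.injEq, heq_eq_eq] at h hr hr'
    obtain ⟨h4, h5, h6⟩ := h
    have h7 : N = N' := by omega
    have h8 : r = r' := by
      funext i
      fin_cases i
      · exact h4
      · simp only [Fin.mk_one]
        omega
    subst h7
    rw [h8]

theorem sum_GK {k : ℕ} (Q T : ℕ) (D : Finset (Fin k → ℕ)) (S : Finset ℕ) (Y : ℕ)
    (hS : ∀ N ∈ S, 1 ≤ N ∧ N ≤ Y) :
    ∑ N ∈ S, (GK Q T D N).card ≤ (T + 1) * ∑ n ∈ D, ck (Y + Q * T) Q n := by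
  classical
  have h0 : ∀ N ∈ S, (GK Q T D N).card ≤ ((range (T + 1) ×ˢ D).filter
      (fun q => (∀ i, q.1 + q.2 i ≤ T) ∧ (N + Q * q.1).Prime ∧
        ∀ i, (N + Q * (q.1 + q.2 i)).Prime)).card := fun N _ => card_image_le
  refine (sum_le_sum h0).trans ?_
  have h1 : ∑ N ∈ S, ((range (T + 1) ×ˢ D).filter
      (fun q => (∀ i, q.1 + q.2 i ≤ T) ∧ (N + Q * q.1).Prime ∧
        ∀ i, (N + Q * (q.1 + q.2 i)).Prime)).card = (S.sigma (fun N => (range (T + 1) ×ˢ D).filter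
      (fun q => (∀ i, q.1 + q.2 i ≤ T) ∧ (N + Q * q.1).Prime ∧
        ∀ i, (N + Q * (q.1 + q.2 i)).Prime))).card := by
    rw [card_sigma]
  have h2 : (range (T + 1) ×ˢ (D.sigma (fun n => (Icc 1 (Y + Q * T)).filter
      (fun m => m.Prime ∧ ∀ i, (m + Q * n i).Prime)))).card =
      (T + 1) * ∑ n ∈ D, ck (Y + Q * T) Q n := by
    rw [card_product, card_range, card_sigma]
    rfl
  rw [h1, ← h2]
  refine card_le_card_of_injOn (fun z => (z.2.1, ⟨z.2.2, z.1 + Q * z.2.1⟩)) ?_ ?_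
  · rintro ⟨N, z, n⟩ hz
    rw [mem_coe, mem_sigma, mem_filter, mem_product, mem_range] at hz
    obtain ⟨hN, ⟨hz1, hn⟩, hz2, hz3, hz4⟩ := hz
    rw [mem_coe, mem_product, mem_sigma, mem_filter, mem_Icc, mem_range]
    have h3 := hS N hN
    simp only at hN hz1 hn hz2 hz3 hz4 h3 ⊢
    have h5 : Q * z ≤ Q * T := Nat.mul_le_mul_left _ (by omega)
    refine ⟨hz1, hn, ⟨by omega, by omega⟩, hz3, fun i => ?_⟩
    have e : N + Q * z + Q * n i = N + Q * (z + n i) := by ring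
    rw [e]
    exact hz4 i
  · rintro ⟨N, z, n⟩ _ ⟨N', z', n'⟩ _ h
    simp only [Prod.mk.injEq, Sigma.mk.injEq, heq_eq_eq] at h
    obtain ⟨h4, h5, h6⟩ := h
    subst h4
    subst h5
    have h7 : N = N' := by omega
    rw [h7]

end Pool.Agent.H61.GD
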