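import Pool.Agent.H61.GD.One
import Pool.Agent.H99.RO.StG
import Pool.Agent.H96.UL.Blk
import Pool.Agent.H96.UL.Main

/-!
# [H61 GD FIN] THEOREM G: the two clauses `TG1`, `TG2` of `H99/RO/StG.lean`, unconditionally
-/

namespace Pool.Agent.H61.GD

open Finset Filter Pool.Agent.H61.UN Pool.Agent.H61.UL

theorem blkU : BlkU := Pool.Agent.H96.UL.blkU_of_medU fun k hk => Pool.Agent.H96.UL.med_uniform k hk

/-- facts about `X = ⌊x⌋` -/
private theorem ev_floor (A : ℝ) (hA : 0 < A) : ∀ᶠ x : ℝ in atTop, x ≤ 2 * (⌊x⌋₊ : ℝ) ∧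
    Real.log x ≤ 2 * Real.log ⌊x⌋₊ ∧ 0 < Real.log ⌊x⌋₊ ∧ Real.log ⌊x⌋₊ ≤ Real.log x ∧
    2 * Real.log x ^ A ≤ Real.log ⌊x⌋₊ ^ (A + 1) := by
  have hl : Tendsto Real.log atTop atTop := Real.tendsto_log_atTop
  filter_upwards [eventually_ge_atTop (4 : ℝ), hl.eventually_ge_atTop (2 * Real.log 2),
    hl.eventually_ge_atTop (2 * (2 * 2 ^ A)), hl.eventually_ge_atTop (1 : ℝ)] with x hx h2 h3 h4
  have hx0 : 0 < x := by linarith
  have h5 : x < ⌊x⌋₊ + 1 := Nat.lt_floor_add_one x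
  have h6 : (⌊x⌋₊ : ℝ) ≤ x := Nat.floor_le hx0.le
  have h7 : x ≤ 2 * (⌊x⌋₊ : ℝ) := by linarith
  have h8 : (0 : ℝ) < ⌊x⌋₊ := by linarith
  have h9 : Real.log x ≤ Real.log 2 + Real.log ⌊x⌋₊ := by
    rw [← Real.log_mul (by norm_num) h8.ne']
    exact Real.log_le_log hx0 h7
  have h10 : Real.log x ≤ 2 * Real.log ⌊x⌋₊ := by linarith
  have h11 : 0 < Real.log ⌊x⌋₊ := by linarith
  refine ⟨h7, h10, h11, Real.log_le_log h8 h6, ?_⟩
  have h12 : Real.log x ^ A ≤ (2 * Real.log ⌊x⌋₊) ^ A :=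
    Real.rpow_le_rpow (by linarith) h10 hA.le
  rw [Real.mul_rpow (by norm_num) h11.le] at h12
  have h13 : 0 ≤ Real.log ⌊x⌋₊ ^ A := Real.rpow_nonneg h11.le A
  rw [Real.rpow_add h11, Real.rpow_one]
  have h14 : 2 * 2 ^ A ≤ Real.log ⌊x⌋₊ := by linarith
  calc 2 * Real.log x ^ A ≤ 2 * (2 ^ A * Real.log ⌊x⌋₊ ^ A) := by linarith
    _ = (2 * 2 ^ A) * Real.log ⌊x⌋₊ ^ A := by ring
    _ ≤ Real.log ⌊x⌋₊ * Real.log ⌊x⌋₊ ^ A := mul_le_mul_of_nonneg_right h14 h13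
    _ = Real.log ⌊x⌋₊ ^ A * Real.log ⌊x⌋₊ := mul_comm _ _

/-- comparison of the thresholds -/
private theorem thr_le {c x L L' : ℝ} {X K k : ℕ} (hc : 0 < c) (hL : 0 ≤ L) (hLL : L ≤ L')
    (hx : 0 < x) (h1 : x ≤ 2 * X) (h2 : 0 < Real.log X) (h3 : Real.log X ≤ Real.log x) :
    c / 2 * min 1 (L / Real.log x) ^ K * x / Real.log x ^ k ≤
      c * (min 1 (L' / Real.log X)) ^ K * (X / Real.log X ^ k) := by
  have hlx : 0 < Real.log x := by linarith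
  have h4 : L / Real.log x ≤ L' / Real.log X := by
    rw [div_le_div_iff₀ hlx h2]
    exact mul_le_mul hLL h3 h2.le (by linarith)
  have h5 : min 1 (L / Real.log x) ^ K ≤ min 1 (L' / Real.log X) ^ K :=
    pow_le_pow_left₀ (le_min zero_le_one (by positivity)) (min_le_min le_rfl h4) _
  have h6 : x / Real.log x ^ k ≤ 2 * X / Real.log X ^ k :=
    div_le_div₀ (by positivity) h1 (by positivity) (pow_le_pow_left₀ h2.le h3 k)
  have h7 : 0 ≤ min 1 (L' / Real.log X) ^ K := by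
    have h8 : 0 ≤ L' / Real.log X := div_nonneg (hL.trans hLL) h2.le
    exact pow_nonneg (le_min zero_le_one h8) _
  calc c / 2 * min 1 (L / Real.log x) ^ K * x / Real.log x ^ k
      = c / 2 * (min 1 (L / Real.log x) ^ K * (x / Real.log x ^ k)) := by ring
    _ ≤ c / 2 * (min 1 (L' / Real.log X) ^ K * (2 * X / Real.log X ^ k)) := by
        apply mul_le_mul_of_nonneg_left _ (by positivity)
        exact mul_le_mul h5 h6 (by positivity) h7
    _ = _ := by ring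

theorem tg2 : Pool.Agent.H99.RO.TG2 := by
  classical
  intro ε hε
  obtain ⟨K, hK⟩ := two blkU
  refine ⟨K, fun A hA => ?_⟩
  obtain ⟨c1, lam1, L1, X1, hc1, hlam1, H1⟩ := hK true ε (A + 1) hε (by linarith)
  obtain ⟨c2, lam2, L2, X2, hc2, hlam2, H2⟩ := hK false ε (A + 1) hε (by linarith)
  obtain ⟨x0, hx0⟩ := eventually_atTop.1 ((ev_floor A hA).and (((tendsto_nat_floor_atTop
    (α := ℝ)).eventually_ge_atTop (max X1 X2)).and (eventually_gt_atTop (0 : ℝ))))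
  refine ⟨min c1 c2 / 2, lam1 / 4, (max L1 L2 : ℕ), x0, by positivity, by positivity,
    fun x hx L hL hLA => ?_⟩
  obtain ⟨⟨h1, h2, h3, h4, h5⟩, h6, h7⟩ := hx0 x hx
  have hLn : max L1 L2 ≤ L := by exact_mod_cast hL
  have hL2 : ((2 * L : ℕ) : ℝ) ≤ Real.log ⌊x⌋₊ ^ (A + 1) := by
    push_cast
    linarith
  have hcase : ∃ (cons : Bool) (c : ℝ), min c1 c2 ≤ c ∧ 0 < c ∧
      ((L : ℝ) ≤ lam1 / 4 * Real.log x → cons = true) ∧
      (1 / 3 - ε) * (((2 * L : ℕ) : ℝ) / 2) ≤ (((Icc 1 (2 * L)).filter (fun h => Even h ∧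
        c * (min 1 (((2 * L : ℕ) : ℝ) / Real.log ⌊x⌋₊)) ^ K * ((⌊x⌋₊ : ℝ) / Real.log ⌊x⌋₊ ^ 2) ≤
          (cq cons ⌊x⌋₊ h : ℝ))).card : ℝ) := by
    by_cases hcs : (L : ℝ) ≤ lam1 / 4 * Real.log x
    · refine ⟨true, c1, min_le_left _ _, hc1, fun _ => rfl, ?_⟩
      exact H1 ⌊x⌋₊ ((le_max_left _ _).trans h6) (2 * L)
        (((le_max_left _ _).trans hLn).trans (by omega)) hL2 (fun _ => by
          push_cast
          have h8 : lam1 / 4 * Real.log x ≤ lam1 / 4 * (2 * Real.log ⌊x⌋₊) :=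
            mul_le_mul_of_nonneg_left h2 (by positivity)
          linarith)
    · refine ⟨false, c2, min_le_right _ _, hc2, fun h => absurd h hcs, ?_⟩
      exact H2 ⌊x⌋₊ ((le_max_right _ _).trans h6) (2 * L)
        (((le_max_right _ _).trans hLn).trans (by omega)) hL2 (fun h => by simp at h)
  obtain ⟨cons, c, hcc, hc, hcons, hmain⟩ := hcase
  have h8 : (1 / 3 - ε) * (((2 * L : ℕ) : ℝ) / 2) = (1 / 3 - ε) * L := by
    push_cast
    ring
  rw [h8] at hmain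
  refine hmain.trans ?_
  norm_cast
  -- even `h ≤ 2L` are `2 n`, `n ≤ L`
  have h9 : ((Icc 1 (2 * L)).filter (fun h => Even h ∧
        c * (min 1 (((2 * L : ℕ) : ℝ) / Real.log ⌊x⌋₊)) ^ K * ((⌊x⌋₊ : ℝ) / Real.log ⌊x⌋₊ ^ 2) ≤
          (cq cons ⌊x⌋₊ h : ℝ))) ⊆ ((Icc 1 L).filter (fun n =>
      min c1 c2 / 2 * min 1 ((L : ℝ) / Real.log x) ^ K * x / Real.log x ^ 2 ≤
      (((Icc 1 ⌊x⌋₊).filter fun N => N.Prime ∧ (N + 2 * n).Prime ∧
        ((L : ℝ) ≤ lam1 / 4 * Real.log x →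
        ∀ y : ℕ, N < y → y < N + 2 * n → ¬ y.Prime)).card : ℝ))).image (fun n => 2 * n) := by
    intro h hh
    rw [mem_filter, mem_Icc] at hh
    obtain ⟨⟨ha, hb⟩, ⟨n, hn⟩, hd⟩ := hh
    rw [mem_image]
    refine ⟨n, ?_, by omega⟩
    rw [mem_filter, mem_Icc]
    refine ⟨⟨by omega, by omega⟩, ?_⟩
    have e : h = 2 * n := by omega
    have h10 := thr_le (c := min c1 c2) (x := x) (L := L) (L' := ((2 * L : ℕ) : ℝ)) (X := ⌊x⌋₊)
      (K := K) (k := 2) (lt_min hc1 hc2) (Nat.cast_nonneg _) (by push_cast; linarith [(Nat.cast_nonneg L : (0 : ℝ) ≤ L)])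
      h7 h1 h3 h4
    refine h10.trans (le_trans ?_ (hd.trans ?_))
    · apply mul_le_mul_of_nonneg_right _ (by positivity)
      apply mul_le_mul_of_nonneg_right hcc
      have h11 : 0 ≤ ((2 * L : ℕ) : ℝ) / Real.log ⌊x⌋₊ := by positivity
      exact pow_nonneg (le_min zero_le_one h11) _
    · unfold cq
      norm_cast
      apply card_le_card
      intro N hN
      rw [mem_filter] at hN ⊢
      rw [e] at hN
      exact ⟨hN.1, hN.2.1, hN.2.2.1, fun hl => hN.2.2.2 (hcons hl)⟩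
  refine (card_le_card h9).trans card_image_le

theorem tg1 : Pool.Agent.H99.RO.TG1 := by
  classical
  intro k ε hk hε
  obtain ⟨K, q, hq, H⟩ := one blkU k hk ε hε
  refine ⟨q, K, hq, fun Q hQ hqQ A hA => ?_⟩
  obtain ⟨c, L1, X1, hc, H1⟩ := H Q (A + 1) hQ hqQ (by linarith)
  obtain ⟨x0, hx0⟩ := eventually_atTop.1 ((ev_floor A hA).and (((tendsto_nat_floor_atTop
    (α := ℝ)).eventually_ge_atTop X1).and (eventually_gt_atTop (0 : ℝ))))
  refine ⟨c / 2, (L1 : ℕ), x0, by positivity, fun x hx L hL hLA => ?_⟩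
  obtain ⟨⟨h1, h2, h3, h4, h5⟩, h6, h7⟩ := hx0 x hx
  have hLn : L1 ≤ L := by exact_mod_cast hL
  have hL2 : (L : ℝ) ≤ Real.log ⌊x⌋₊ ^ (A + 1) := by
    have : (0 : ℝ) ≤ L := Nat.cast_nonneg _
    linarith
  refine (H1 ⌊x⌋₊ h6 L hLn hL2).trans ?_
  norm_cast
  apply card_le_card
  intro n hn
  rw [mem_filter] at hn ⊢
  refine ⟨hn.1, ?_⟩
  have h10 := thr_le (c := c) (x := x) (L := L) (L' := L) (X := ⌊x⌋₊) (K := K) (k := k + 1) hc
    (Nat.cast_nonneg _) le_rfl h7 h1 h3 h4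
  exact h10.trans hn.2

end Pool.Agent.H61.GD
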