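import Pool.Agent.H61.GD.Def
import Pool.Agent.H61.GD.Two
import Pool.Agent.H21.GC.KBox

/-!
# [H61 GD ONE] Clause (1): `(13/50)^k - ε` of all `n ∈ [1, L]^k`

`η, B` from `k_box`, `e = min (η/2) (1/100)`, `s` from `main_B hU e B k`, `Q0 = primorial (B s)`, `K = B s - (k+1)`.
-/

namespace Pool.Agent.H61.GD

open Finset Filter Pool.Agent.H61.UN Pool.Agent.H61.UL Pool.Agent.H92.MM

open Classical in
theorem k_box' (k : ℕ) (hk : 1 ≤ k) (α : ℝ) (hα : 0 < α) (hα1 : α ≤ 1) (ε : ℝ) (hε : 0 < ε)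
    (hεα : ε < α ^ k) :
    ∃ η : ℝ, 0 < η ∧ ∃ B : ℕ, k + 1 ≤ B ∧ ∀ s : ℕ, 1 ≤ s → ∃ δ : ℝ, 0 < δ ∧ ∃ T₀ : ℕ,
      ∀ T : ℕ, T₀ ≤ T → ∀ G : Set (Fin k → ℕ),
      (((Fintype.piFinset fun _ : Fin k => Icc 1 T).filter
        (fun n => n ∈ G)).card : ℝ) ≤ (α ^ k - ε) * (T : ℝ) ^ k →
      δ * (T : ℝ) ^ (B * s) ≤ ((univ.filter (fun V : Fin B → Fin s → Fin (T + 1) =>
        (∀ i j i' j', V i j = V i' j' → i = i' ∧ j = j') ∧
        ∀ E : Finset (Fin B), (α - η) * B ≤ E.card → ∀ φ : Fin B → Fin s,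
          ∃ j₀ ∈ E, ∃ j : Fin k → Fin B, (∀ i, j i ∈ E) ∧ Function.Injective j ∧
            (∀ i, (V j₀ (φ j₀) : ℕ) < V (j i) (φ (j i))) ∧
            (fun i => (V (j i) (φ (j i)) : ℕ) - V j₀ (φ j₀)) ∉ G)).card : ℝ) := by
  obtain ⟨η, hη, B, hB, h⟩ := Pool.Agent.H21.GC.k_box k hk α hα hα1 ε hε
  refine ⟨η, hη, B, ?_, h⟩
  obtain ⟨δ, hδ, T₀, hT⟩ := h 1 le_rfl
  have h1 := hT (max T₀ 1) (le_max_left _ _) ∅ (by
    simp only [Set.mem_empty_iff_false, filter_false, card_empty, Nat.cast_zero]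
    have : 0 ≤ α ^ k - ε := by linarith
    positivity)
  have hT1 : (0 : ℝ) < ((max T₀ 1 : ℕ) : ℝ) := by
    have : 0 < max T₀ 1 := lt_of_lt_of_le one_pos (le_max_right _ _)
    exact_mod_cast this
  have h2 : (0 : ℝ) < δ * ((max T₀ 1 : ℕ) : ℝ) ^ (B * 1) := by positivity
  have h3 := lt_of_lt_of_le h2 h1
  have h4 : 0 < (univ.filter (fun V : Fin B → Fin 1 → Fin (max T₀ 1 + 1) =>
        (∀ i j i' j', V i j = V i' j' → i = i' ∧ j = j') ∧
        ∀ E : Finset (Fin B), (α - η) * B ≤ E.card → ∀ φ : Fin B → Fin 1,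
          ∃ j₀ ∈ E, ∃ j : Fin k → Fin B, (∀ i, j i ∈ E) ∧ Function.Injective j ∧
            (∀ i, (V j₀ (φ j₀) : ℕ) < V (j i) (φ (j i))) ∧
            (fun i => (V (j i) (φ (j i)) : ℕ) - V j₀ (φ j₀)) ∉ (∅ : Set (Fin k → ℕ)))).card := by
    exact_mod_cast h3
  obtain ⟨V, hV⟩ := card_pos.1 h4
  rw [mem_filter] at hV
  obtain ⟨j₀, -, j, -, hj, hlt, -⟩ := hV.2.2 univ (by
    rw [card_univ, Fintype.card_fin]
    have : (0 : ℝ) ≤ B := Nat.cast_nonneg _
    nlinarith) (fun _ => 0)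
  have h5 : Function.Injective (Fin.cons j₀ j : Fin (k + 1) → Fin B) := by
    rw [Fin.cons_injective_iff]
    refine ⟨?_, hj⟩
    rintro ⟨i, hi⟩
    have := hlt i
    rw [hi] at this
    exact lt_irrefl _ this
  have h6 := Fintype.card_le_of_injective _ h5
  rwa [Fintype.card_fin, Fintype.card_fin] at h6

open Classical in
theorem one (hU : BlkU) (k : ℕ) (hk : 1 ≤ k) (ε : ℝ) (hε : 0 < ε) : ∃ K Q0 : ℕ, 1 ≤ Q0 ∧
    ∀ (Q : ℕ) (A : ℝ), 0 < Q → Q0 ∣ Q → 0 < A → ∃ (c : ℝ) (L0 X0 : ℕ), 0 < c ∧ ∀ X : ℕ, X0 ≤ X →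
      ∀ L : ℕ, L0 ≤ L → (L : ℝ) ≤ Real.log X ^ A →
      ((13 / 50 : ℝ) ^ k - ε) * (L : ℝ) ^ k ≤
        (((Fintype.piFinset fun _ : Fin k => Icc 1 L).filter (fun n =>
          c * (min 1 ((L : ℝ) / Real.log X)) ^ K * (X / Real.log X ^ (k + 1)) ≤
            (ck X Q n : ℝ))).card : ℝ) := by
  rcases le_or_gt ((13 / 50 : ℝ) ^ k) ε with hεk | hεk
  · refine ⟨0, 1, le_rfl, fun Q A _ _ _ => ⟨1, 0, 0, one_pos, fun X _ L _ _ => ?_⟩⟩
    have h1 : ((13 / 50 : ℝ) ^ k - ε) * (L : ℝ) ^ k ≤ 0 :=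
      mul_nonpos_of_nonpos_of_nonneg (by linarith) (by positivity)
    exact h1.trans (Nat.cast_nonneg _)
  obtain ⟨η, hη, B, hB, hbox0⟩ := k_box' k hk (13 / 50) (by norm_num) (by norm_num) ε hε hεk
  obtain ⟨e, he⟩ : ∃ e : ℝ, e = min (η / 2) (1 / 100) := ⟨_, rfl⟩
  have he0 : 0 < e := by
    rw [he]
    positivity
  have he1 : e ≤ 1 / 100 := by rw [he]; exact min_le_right _ _
  have heη : 2 * e ≤ η := by
    have : e ≤ η / 2 := by rw [he]; exact min_le_left _ _
    linarith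
  obtain ⟨s, hs, hmain⟩ := main_B hU e he0 he1 B k hB
  refine ⟨B * s - (k + 1), primorial (B * s), primorial_pos _, fun Q A hQ hQ0 hA => ?_⟩
  obtain ⟨δ0, hδ0, T0, hbox⟩ := hbox0 s hs
  have hQr : (1 : ℝ) ≤ Q := by exact_mod_cast hQ
  obtain ⟨δ, hδ⟩ : ∃ δ : ℝ, δ = δ0 / (Q : ℝ) ^ (B * s) := ⟨_, rfl⟩
  have hδ' : 0 < δ := by
    rw [hδ]
    positivity
  obtain ⟨c1, T1, lam1, hc1, hT1, hlam1, hev⟩ := hmain (A + 1) δ (by linarith) hδ'
  have hx : Tendsto (fun X : ℕ => (X : ℝ) / (2 * T1)) atTop atTop :=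
    (tendsto_natCast_atTop_atTop).atTop_div_const (by positivity)
  have hev1 := hx.eventually hev
  have hev2 := (tendsto_natCast_atTop_atTop (R := ℝ)).eventually (ev_two A T1 hA hT1 Q)
  obtain ⟨X0, hX0⟩ := eventually_atTop.1 (hev1.and hev2)
  refine ⟨c1 / (8 * T1), T0 + 1, max X0 1, by positivity, fun X hX L hL hLA => ?_⟩
  obtain ⟨hE1, hE2⟩ := hX0 X ((le_max_left _ _).trans hX)
  have hXpos : (0 : ℝ) < X := by
    have : 1 ≤ X := (le_max_right _ _).trans hX
    exact_mod_cast this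
  obtain ⟨hq1, hq2, hq3, hq4, hq5⟩ := hE2 L (Nat.cast_nonneg _) hLA
  obtain ⟨x, hxd⟩ : ∃ x : ℝ, x = (X : ℝ) / (2 * T1) := ⟨_, rfl⟩
  rw [← hxd] at hE1 hq1 hq2 hq3 hq4
  by_contra hcon
  push Not at hcon
  obtain ⟨thr, hthr⟩ : ∃ thr : ℝ, thr = c1 / (8 * T1) *
    (min 1 ((L : ℝ) / Real.log X)) ^ (B * s - (k + 1)) * (X / Real.log X ^ (k + 1)) := ⟨_, rfl⟩
  rw [← hthr] at hcon
  have hL1 : 1 ≤ L := by omega
  have hB2 := hbox L (by omega) {n : Fin k → ℕ | thr ≤ (ck X Q n : ℝ)} hcon.le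
  obtain ⟨VV, hVV⟩ : ∃ VV : Finset (Fin B → Fin s → Fin (L + 1)), VV =
      univ.filter (fun V : Fin B → Fin s → Fin (L + 1) =>
        (∀ i j i' j', V i j = V i' j' → i = i' ∧ j = j') ∧
        ∀ E : Finset (Fin B), (13 / 50 - η) * B ≤ E.card → ∀ φ : Fin B → Fin s,
          ∃ j₀ ∈ E, ∃ j : Fin k → Fin B, (∀ i, j i ∈ E) ∧ Function.Injective j ∧
            (∀ i, (V j₀ (φ j₀) : ℕ) < V (j i) (φ (j i))) ∧
            (fun i => (V (j i) (φ (j i)) : ℕ) - V j₀ (φ j₀)) ∉
              {n : Fin k → ℕ | thr ≤ (ck X Q n : ℝ)}) := ⟨_, rfl⟩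
  rw [← hVV] at hB2
  obtain ⟨BB, hBB⟩ : ∃ BB : Finset (Fin B × Fin s → ℕ),
      BB = VV.image (fun V q => Q * (V q.1 q.2 : ℕ)) := ⟨_, rfl⟩
  have hBBcard : BB.card = VV.card := by
    rw [hBB]
    apply card_image_of_injective
    intro V V' h
    funext i j
    have h1 := congrFun h (i, j)
    simp only at h1
    exact Fin.ext (Nat.eq_of_mul_eq_mul_left hQ h1)
  obtain ⟨D, hD⟩ : ∃ D : Finset (Fin k → ℕ), D = (Fintype.piFinset fun _ : Fin k => Icc 1 L).filter
      (fun n => ¬ thr ≤ (ck X Q n : ℝ)) := ⟨_, rfl⟩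
  have hDcard : D.card ≤ L ^ k := by
    rw [hD]
    refine (card_filter_le _ _).trans ?_
    rw [Fintype.card_piFinset]
    simp
  have hdata : ∀ v ∈ BB, ∃ V ∈ VV, ∀ q, v q = Q * (V q.1 q.2 : ℕ) := by
    intro v hv
    rw [hBB, mem_image] at hv
    obtain ⟨V, hV, rfl⟩ := hv
    exact ⟨V, hV, fun q => rfl⟩
  have hVle : ∀ (V : Fin B → Fin s → Fin (L + 1)) i j, (V i j : ℕ) ≤ L := fun V i j => by
    have := (V i j).isLt
    omega
  have hle : ∀ v ∈ BB, ∀ q, v q ≤ Q * L := by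
    intro v hv q
    obtain ⟨V, -, h⟩ := hdata v hv
    rw [h]
    exact Nat.mul_le_mul_left _ (hVle _ _ _)
  have hinj : ∀ v ∈ BB, Function.Injective v := by
    intro v hv q q' hqq
    obtain ⟨V, hV, h⟩ := hdata v hv
    rw [hVV, mem_filter] at hV
    rw [h, h] at hqq
    have h1 : V q.1 q.2 = V q'.1 q'.2 := Fin.ext (Nat.eq_of_mul_eq_mul_left hQ hqq)
    have h2 := hV.2.1 _ _ _ _ h1
    exact Prod.ext h2.1 h2.2
  have key := hE1 (Q * L) (Nat.mul_pos hQ hL1) (by
      refine le_trans ?_ hq1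
      push_cast
      exact le_rfl) False (fun h => h.elim) BB (by
      intro v hv
      refine ⟨mem_IJ.2 ⟨hle v hv, hinj v hv⟩, ?_⟩
      intro p hp
      obtain ⟨V, hV, h⟩ := hdata v hv
      by_cases hpB : p ≤ B * s
      · refine ⟨1, fun q hq => ?_⟩
        have h1 : p ∣ Q := (hp.dvd_primorial_iff.2 hpB).trans hQ0
        rw [h] at hq
        have h2 : p ∣ 1 := (Nat.dvd_add_left (h1.mul_right _)).1 hq
        exact hp.one_lt.ne' (Nat.dvd_one.1 h2)
      · push Not at hpB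
        -- fewer than `p` residues
        obtain ⟨S, hS⟩ : ∃ S : Finset ℕ, S = univ.image (fun q : Fin B × Fin s => v q % p) :=
          ⟨_, rfl⟩
        have h1 : S.card < p := by
          rw [hS]
          refine lt_of_le_of_lt card_image_le ?_
          rw [card_univ, Fintype.card_prod, Fintype.card_fin, Fintype.card_fin]
          exact hpB
        obtain ⟨r, hr, hr'⟩ : ∃ r ∈ range p, r ∉ S := by
          by_contra hcon'
          push Not at hcon'
          have := card_le_card (fun r hr => hcon' r hr : range p ⊆ S)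
          rw [card_range] at this
          omega
        rw [mem_range] at hr
        refine ⟨p - r, fun q hq => hr' ?_⟩
        rw [hS, mem_image]
        refine ⟨q, mem_univ _, ?_⟩
        have h3 : (p - r + v q) + r ≡ 0 + r [MOD p] :=
          Nat.ModEq.add_right r ((Nat.modEq_zero_iff_dvd).2 hq)
        have h4 : (p - r + v q) + r = v q + p := by omega
        rw [h4, zero_add] at h3
        have h5 : v q + p ≡ v q [MOD p] := Nat.add_mod_right _ _
        have h6 : v q % p = r % p := h5.symm.trans h3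
        rw [h6, Nat.mod_eq_of_lt hr]) (by
      rw [hBBcard]
      refine le_trans (le_of_eq ?_) hB2
      rw [hδ]
      push_cast
      rw [mul_pow]
      field_simp) (GK Q L D) (by
      intro N _ r hr i
      unfold GK at hr
      rw [mem_image] at hr
      obtain ⟨⟨z, n⟩, hq, rfl⟩ := hr
      rw [mem_filter, mem_product, mem_range] at hq
      obtain ⟨⟨hz, hn⟩, h1, h2, h3⟩ := hq
      simp only at hz hn h1 h2 h3
      refine Fin.cases ?_ (fun i => ?_) i
      · simp only [Fin.cons_zero]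
        exact ⟨Nat.mul_le_mul_left _ (by omega), h2⟩
      · simp only [Fin.cons_succ]
        exact ⟨Nat.mul_le_mul_left _ (h1 i), h3 i⟩) (by
      intro v hv N _ hpc _
      obtain ⟨V, hV, h⟩ := hdata v hv
      rw [hVV, mem_filter] at hV
      obtain ⟨E, hE⟩ : ∃ E : Finset (Fin B), E =
        univ.filter (fun j : Fin B => ∃ l : Fin s, (N + v (j, l)).Prime) := ⟨_, rfl⟩
      have hEc : (13 / 50 - η) * B ≤ E.card := by
        have h1 : (pc v N : ℝ) = E.card := by
          rw [hE]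
          rfl
        rw [← h1]
        refine le_trans ?_ hpc
        apply mul_le_mul_of_nonneg_right _ (Nat.cast_nonneg _)
        linarith
      obtain ⟨φ, hφ⟩ : ∃ φ : Fin B → Fin s, ∀ j ∈ E, (N + v (j, φ j)).Prime := by
        have : ∀ j : Fin B, ∃ l : Fin s, j ∈ E → (N + v (j, l)).Prime := by
          intro j
          by_cases hj : j ∈ E
          · have h2 := hj
            rw [hE, mem_filter] at h2
            obtain ⟨l, hl⟩ := h2.2
            exact ⟨l, fun _ => hl⟩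
          · exact ⟨⟨0, hs⟩, fun h => absurd h hj⟩
        choose φ hφ using this
        exact ⟨φ, hφ⟩
      obtain ⟨j₀, hj₀, j, hj, hjinj, hlt, hbad⟩ := hV.2.2 E hEc φ
      refine ⟨Fin.cons (j₀, φ j₀) (fun i => (j i, φ (j i))), ?_, ?_⟩
      · rw [Fin.cons_injective_iff]
        refine ⟨?_, ?_⟩
        · rintro ⟨i, hi⟩
          simp only [Prod.mk.injEq] at hi
          have := hlt i
          rw [hi.1] at this
          exact lt_irrefl _ this
        · intro i i' hii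
          simp only [Prod.mk.injEq] at hii
          exact hjinj hii.1
      · unfold GK
        rw [mem_image]
        refine ⟨((V j₀ (φ j₀) : ℕ), fun i => (V (j i) (φ (j i)) : ℕ) - V j₀ (φ j₀)), ?_, ?_⟩
        · have e1 : ∀ i, (V j₀ (φ j₀) : ℕ) + ((V (j i) (φ (j i)) : ℕ) - V j₀ (φ j₀)) =
              V (j i) (φ (j i)) := fun i => by
            have := hlt i
            omega
          rw [mem_filter, mem_product, mem_range]
          simp only [e1]
          refine ⟨⟨by have := hVle V j₀ (φ j₀); omega, ?_⟩, fun i => hVle _ _ _, ?_, fun i => ?_⟩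
          · rw [hD, mem_filter, Fintype.mem_piFinset]
            refine ⟨fun i => ?_, hbad⟩
            rw [mem_Icc]
            have h2 := hlt i
            have h3 := hVle V (j i) (φ (j i))
            omega
          · have := hφ j₀ hj₀
            rwa [h] at this
          · have := hφ (j i) (hj i)
            rwa [h] at this
        · funext i
          refine Fin.cases ?_ (fun i => ?_) i
          · simp only [Fin.cons_zero, Function.comp, h]
          · simp only [Fin.cons_succ, Function.comp, h]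
            have := hlt i
            congr 1
            omega)
  -- upper bound
  have hTx0 : ∀ N ∈ (Tx x).filter (fun N : ℕ => (N : ℝ) ≤ T1 * x), 1 ≤ N ∧ N ≤ X - Q * L := by
    intro N hN
    rw [mem_filter, Tx, mem_Ioc] at hN
    have h1 : T1 * x = X / 2 := by
      rw [hxd]
      have : T1 ≠ 0 := by positivity
      field_simp
    have h2 : (N : ℝ) ≤ X / 2 := by rw [← h1]; exact hN.2
    have h4 : ((N + Q * L : ℕ) : ℝ) ≤ X := by
      push_cast
      linarith
    have h5 : N + Q * L ≤ X := by exact_mod_cast h4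
    omega
  have hup := sum_GK Q L D _ (X - Q * L) hTx0
  have hX4 : X - Q * L + Q * L = X := by
    have h4 : ((Q * L : ℕ) : ℝ) ≤ X := by
      push_cast
      linarith
    have h5 : Q * L ≤ X := by exact_mod_cast h4
    omega
  rw [hX4] at hup
  have hlX : 0 < Real.log X := by linarith
  have hthr0 : 0 ≤ thr := by
    rw [hthr]
    have : 0 ≤ min 1 ((L : ℝ) / Real.log X) := le_min zero_le_one (by positivity)
    positivity
  have hup2 : ((∑ N ∈ (Tx x).filter (fun N : ℕ => (N : ℝ) ≤ T1 * x),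
      (GK Q L D N).card : ℕ) : ℝ) ≤ (L + 1) * ((L : ℝ) ^ k * thr) := by
    have h1 : ((∑ N ∈ (Tx x).filter (fun N : ℕ => (N : ℝ) ≤ T1 * x),
        (GK Q L D N).card : ℕ) : ℝ) ≤ ((L + 1) * ∑ n ∈ D, ck X Q n : ℕ) := by
      exact_mod_cast hup
    refine h1.trans ?_
    push_cast
    apply mul_le_mul_of_nonneg_left _ (by positivity)
    calc ∑ n ∈ D, (ck X Q n : ℝ) ≤ ∑ _n ∈ D, thr := by
          apply sum_le_sum
          intro h hh
          rw [hD, mem_filter] at hh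
          have := hh.2
          push Not at this
          exact this.le
      _ = D.card * thr := by rw [sum_const, nsmul_eq_mul]
      _ ≤ (L : ℝ) ^ k * thr := mul_le_mul_of_nonneg_right (by exact_mod_cast hDcard) hthr0
  push_cast at hup2 key
  have hkey2 := key.trans hup2
  have hLr : (1 : ℝ) ≤ L := by exact_mod_cast hL1
  have hQL : (L : ℝ) ≤ Q * L := by nlinarith
  obtain ⟨M, hM⟩ : ∃ M : ℝ, M = (min 1 ((L : ℝ) / Real.log X)) ^ (B * s - (k + 1)) := ⟨_, rfl⟩
  have hM0 : 0 < M := by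
    rw [hM]
    have : 0 < min 1 ((L : ℝ) / Real.log X) := lt_min one_pos (by positivity)
    positivity
  have hmono : (L : ℝ) / Real.log X ≤ Q * L / Real.log x := by
    rw [div_le_div_iff₀ hlX hq3]
    exact mul_le_mul hQL hq4 hq3.le (by positivity)
  have h1 : M ≤ (min 1 ((Q : ℝ) * L / Real.log x)) ^ (B * s - (k + 1)) := by
    rw [hM]
    apply pow_le_pow_left₀ (le_min zero_le_one (by positivity))
    exact min_le_min le_rfl hmono
  have h2 : ((L : ℝ) / Real.log X) ^ (k + 1) ≤ ((Q : ℝ) * L / Real.log x) ^ (k + 1) :=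
    pow_le_pow_left₀ (by positivity) hmono _
  have hx0 : 0 ≤ x := by
    rw [hxd]
    positivity
  have h3 : c1 * x * ((L : ℝ) / Real.log X) ^ (k + 1) * M ≤
      c1 * x * ((Q : ℝ) * L / Real.log x) ^ (k + 1) *
        (min 1 ((Q : ℝ) * L / Real.log x)) ^ (B * s - (k + 1)) := by
    apply mul_le_mul _ h1 hM0.le (by positivity)
    exact mul_le_mul_of_nonneg_left h2 (by positivity)
  have h4 := h3.trans hkey2
  rw [hthr, ← hM, hxd] at h4
  have e2 : Real.log X ≠ 0 := hlX.ne'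
  have e1 : T1 ≠ 0 := by positivity
  have h5 : c1 * ((X : ℝ) / (2 * T1)) * ((L : ℝ) / Real.log X) ^ (k + 1) * M =
      (4 * (L : ℝ)) * ((L : ℝ) ^ k * (c1 / (8 * T1) * M * (X / Real.log X ^ (k + 1)))) := by
    rw [div_pow]
    field_simp
    ring
  have h7 : 0 < (L : ℝ) ^ k * (c1 / (8 * T1) * M * (X / Real.log X ^ (k + 1))) := by positivity
  rw [h5] at h4
  have h8 := le_of_mul_le_mul_right h4 h7
  linarith

end Pool.Agent.H61.GD
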